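import Mathlib

/-!
# Bumps invariant under the tangent chain of the unit circle

`lev z = |z|^2 - 1`, `ang z` the argument in `(0, 2 pi]`, `alp z = arctan (sqrt (lev z))` (half of the angle
under which the unit circle is seen between the two tangency points).  The function
`sin (pi * ang / alp)` takes the same values at `p (1 + i s)` and `p (1 - i s)`, `|p| = 1`.
-/

namespace Pool.Agent.MP_ae5b4e_an_GERM

open Real Set Filter Topology
open scoped ContDiff

noncomputable section

/-- `|z|^2 - 1` -/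
def lev (z : ℂ) : ℝ := Complex.normSq z - 1

/-- bump in the level, supported in `(2^-(n+1), 2^-n)` -/
def bmp (n : ℕ) (u : ℝ) : ℝ :=
  expNegInvGlue (u - (1 / 2) ^ (n + 1)) * expNegInvGlue ((1 / 2) ^ n - u)

/-- cut-off near the positive real axis -/
def cut (n : ℕ) (z : ℂ) : ℝ := Real.smoothTransition (2 ^ n * (1 - z.re / ‖z‖) - 1)

/-- the argument in `(0, 2 pi]` -/
def ang (z : ℂ) : ℝ := π + (-z).arg

/-- half angle -/
def alp (z : ℂ) : ℝ := Real.arctan (Real.sqrt (lev z))

/-- the wave -/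
def wav (n : ℕ) (z : ℂ) : ℝ := bmp n (lev z) * cut n z * Real.sin (π * ang z / alp z)

lemma lev_contDiff : ContDiff ℝ ⊤ (lev : ℂ → ℝ) := by
  have h : (lev : ℂ → ℝ) = fun z => Complex.reCLM z * Complex.reCLM z + Complex.imCLM z * Complex.imCLM z - 1 := by
    funext z; simp [lev, Complex.normSq_apply]
  rw [h]
  exact ((Complex.reCLM.contDiff.mul Complex.reCLM.contDiff).add
    (Complex.imCLM.contDiff.mul Complex.imCLM.contDiff)).sub contDiff_const

lemma bmp_contDiff (n : ℕ) : ContDiff ℝ ∞ (bmp n) := by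
  unfold bmp
  exact (expNegInvGlue.contDiff.comp (contDiff_id.sub contDiff_const)).mul
    (expNegInvGlue.contDiff.comp (contDiff_const.sub contDiff_id))

lemma bmp_zero_of_le {n : ℕ} {u : ℝ} (h : u ≤ (1 / 2) ^ (n + 1)) : bmp n u = 0 := by
  unfold bmp; rw [expNegInvGlue.zero_of_nonpos (by linarith)]; simp

lemma bmp_zero_of_ge {n : ℕ} {u : ℝ} (h : (1 / 2) ^ n ≤ u) : bmp n u = 0 := by
  unfold bmp; rw [expNegInvGlue.zero_of_nonpos (x := (1 / 2) ^ n - u) (by linarith)]; simp

lemma bmp_pos {n : ℕ} {u : ℝ} (h1 : (1 / 2) ^ (n + 1) < u) (h2 : u < (1 / 2) ^ n) : 0 < bmp n u := by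
  unfold bmp; exact mul_pos (expNegInvGlue.pos_of_pos (by linarith)) (expNegInvGlue.pos_of_pos (by linarith))

lemma bmp_nonneg (n : ℕ) (u : ℝ) : 0 ≤ bmp n u := by
  unfold bmp; exact mul_nonneg (expNegInvGlue.nonneg _) (expNegInvGlue.nonneg _)

lemma bmp_ne {n : ℕ} {u : ℝ} (h : bmp n u ≠ 0) : (1 / 2) ^ (n + 1) < u ∧ u < (1 / 2) ^ n := by
  constructor
  · by_contra hc; exact h (bmp_zero_of_le (not_lt.1 hc))
  · by_contra hc; exact h (bmp_zero_of_ge (not_lt.1 hc))

lemma cut_contDiffAt (n : ℕ) {z : ℂ} (hz : z ≠ 0) : ContDiffAt ℝ ∞ (cut n) z := by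
  unfold cut
  refine (Real.smoothTransition.contDiffAt).comp z ?_
  refine ContDiffAt.sub (contDiffAt_const.mul (contDiffAt_const.sub ?_)) contDiffAt_const
  refine ContDiffAt.div ?_ (contDiffAt_norm ℝ hz) (norm_ne_zero_iff.2 hz)
  exact Complex.reCLM.contDiff.contDiffAt

lemma ang_contDiffAt {z : ℂ} (hz : -z ∈ Complex.slitPlane) : ContDiffAt ℝ ∞ ang z := by
  unfold ang
  refine contDiffAt_const.add ?_
  have h1 : (fun w : ℂ => (-w).arg) = fun w => Complex.imCLM (Complex.log (-w)) := by
    funext w; simp [Complex.log_im]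
  rw [h1]
  refine Complex.imCLM.contDiff.contDiffAt.comp z ?_
  have h2 : ContDiffAt ℂ ∞ Complex.log (-z) := Complex.contDiffAt_log hz
  exact (h2.restrict_scalars ℝ).comp z contDiff_neg.contDiffAt

lemma alp_contDiffAt {z : ℂ} (hz : 0 < lev z) : ContDiffAt ℝ ∞ alp z := by
  unfold alp
  refine Real.contDiff_arctan.contDiffAt.comp z ?_
  exact (Real.contDiffAt_sqrt hz.ne').comp z ((lev_contDiff.of_le le_top).contDiffAt)

lemma alp_pos {z : ℂ} (hz : 0 < lev z) : 0 < alp z := by
  unfold alp; exact Real.arctan_pos.2 (Real.sqrt_pos.2 hz)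

lemma ne_zero_of_lev {z : ℂ} (hz : 0 < lev z) : z ≠ 0 := by
  rintro rfl; simp [lev] at hz; linarith

lemma wav_contDiff (n : ℕ) : ContDiff ℝ ∞ (wav n) := by
  rw [contDiff_iff_contDiffAt]
  intro z
  have hlev : Continuous lev := (lev_contDiff).continuous
  by_cases h0 : lev z ≤ 0
  · have hev : wav n =ᶠ[𝓝 z] fun _ => 0 := by
      have : ∀ᶠ w in 𝓝 z, lev w < (1 / 2) ^ (n + 1) :=
        hlev.continuousAt.eventually_lt continuousAt_const (lt_of_le_of_lt h0 (by positivity))
      filter_upwards [this] with w hw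
      simp [wav, bmp_zero_of_le hw.le]
    exact contDiffAt_const.congr_of_eventuallyEq hev
  push Not at h0
  have hz0 := ne_zero_of_lev h0
  by_cases hs : -z ∈ Complex.slitPlane
  · unfold wav
    refine (((bmp_contDiff n).contDiffAt.comp z (lev_contDiff.of_le le_top).contDiffAt).mul
      (cut_contDiffAt n hz0)).mul ?_
    refine Real.contDiff_sin.contDiffAt.comp z ?_
    exact (contDiffAt_const.mul (ang_contDiffAt hs)).div (alp_contDiffAt h0) (alp_pos h0).ne'
  · -- `z` is a positive real number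
    have hz1 : z.im = 0 ∧ 0 < z.re := by
      rw [Complex.mem_slitPlane_iff] at hs
      push Not at hs
      have him : z.im = 0 := by have := hs.2; simpa using this
      refine ⟨him, ?_⟩
      have hre : 0 ≤ z.re := by have := hs.1; simpa using this
      rcases lt_or_eq_of_le hre with h | h
      · exact h
      · exact absurd (Complex.ext h.symm him) hz0
    have hcont : ContinuousAt (fun w : ℂ => 2 ^ n * (1 - w.re / ‖w‖) - 1) z := by
      have : ContinuousAt (fun w : ℂ => w.re / ‖w‖) z :=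
        (Complex.continuous_re.continuousAt).div continuous_norm.continuousAt (norm_ne_zero_iff.2 hz0)
      exact (continuousAt_const.mul (continuousAt_const.sub this)).sub continuousAt_const
    have hnorm : ‖z‖ = z.re := by
      have : z = (z.re : ℂ) := by
        apply Complex.ext <;> simp [hz1.1]
      rw [this, Complex.norm_real, Real.norm_of_nonneg]
      · simp
      · simpa using hz1.2.le
    have hval : 2 ^ n * (1 - z.re / ‖z‖) - 1 < (0 : ℝ) := by
      rw [hnorm, div_self hz1.2.ne']; norm_num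
    have hev : wav n =ᶠ[𝓝 z] fun _ => 0 := by
      filter_upwards [hcont.eventually_lt continuousAt_const hval] with w hw
      have : cut n w = 0 := Real.smoothTransition.zero_of_nonpos hw.le
      simp [wav, this]
    exact contDiffAt_const.congr_of_eventuallyEq hev

lemma wav_zero_of_lev_nonpos (n : ℕ) {z : ℂ} (h : lev z ≤ 0) : wav n z = 0 := by
  simp [wav, bmp_zero_of_le (le_trans h (by positivity : (0 : ℝ) ≤ (1 / 2) ^ (n + 1)))]

lemma wav_zero_of_one_le (n : ℕ) {z : ℂ} (h : 1 ≤ lev z) : wav n z = 0 := by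
  have : ((1 : ℝ) / 2) ^ n ≤ 1 := pow_le_one₀ (by norm_num) (by norm_num)
  simp [wav, bmp_zero_of_ge (le_trans this h)]

lemma lev_eq (z : ℂ) : lev z = ‖z‖ ^ 2 - 1 := by
  unfold lev; rw [Complex.normSq_eq_norm_sq]

lemma wav_hasCompactSupport (n : ℕ) : HasCompactSupport (wav n) := by
  refine HasCompactSupport.intro (isCompact_closedBall (0 : ℂ) 2) ?_
  intro z hz
  apply wav_zero_of_one_le
  rw [lev_eq]
  have : 2 < ‖z‖ := by simpa using hz
  nlinarith

end

end Pool.Agent.MP_ae5b4e_an_GERM
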