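import Mathlib

/-!
# Summing compactly supported smooth functions with small coefficients
-/

namespace Pool.Agent.MP_ae5b4e_an_GERM

open Real Set Filter Topology
open scoped ContDiff

noncomputable section

variable {f : ℕ → ℂ → ℝ}

/-- With positive coefficients which decrease fast, the sum of smooth compactly supported functions is
smooth, with second derivative at most `δ`. -/
theorem exists_coeff (hf : ∀ n, ContDiff ℝ ∞ (f n)) (hc : ∀ n, HasCompactSupport (f n)) {δ : ℝ}
    (hδ : 0 < δ) :
    ∃ e : ℕ → ℝ, (∀ n, 0 < e n) ∧ ContDiff ℝ ∞ (fun z => ∑' n, e n * f n z) ∧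
      (∀ z w, ‖fderiv ℝ (fun z => ∑' n, e n * f n z) z - fderiv ℝ (fun z => ∑' n, e n * f n z) w‖ ≤
        δ * ‖z - w‖) := by
  have hb : ∀ n k : ℕ, ∃ C : ℝ, ∀ z, ‖iteratedFDeriv ℝ k (f n) z‖ ≤ C := by
    intro n k
    have h1 : Continuous (iteratedFDeriv ℝ k (f n)) :=
      (hf n).continuous_iteratedFDeriv (m := k) (by exact_mod_cast le_top)
    exact h1.bounded_above_of_compact_support ((hc n).iteratedFDeriv k)
  choose C hC using hb
  have hC0 : ∀ n k, 0 ≤ C n k := fun n k => le_trans (norm_nonneg _) (hC n k 0)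
  set S : ℕ → ℝ := fun n => 1 + ∑ k ∈ Finset.range (n + 3), C n k with hS
  have hSpos : ∀ n, 0 < S n := by
    intro n
    have : 0 ≤ ∑ k ∈ Finset.range (n + 3), C n k := Finset.sum_nonneg fun k _ => hC0 n k
    simp only [hS]; linarith
  set e : ℕ → ℝ := fun n => δ * (1 / 2) ^ n / (2 * S n) with he
  have hepos : ∀ n, 0 < e n := fun n => by
    have := hSpos n
    simp only [he]; positivity
  have hle : ∀ n k, k < n + 3 → e n * C n k ≤ δ / 2 * (1 / 2) ^ n := by
    intro n k hk
    have h1 : C n k ≤ S n := by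
      have : C n k ≤ ∑ k ∈ Finset.range (n + 3), C n k :=
        Finset.single_le_sum (fun k _ => hC0 n k) (Finset.mem_range.2 hk)
      simp only [hS]; linarith
    have h2 : e n * C n k ≤ e n * S n := mul_le_mul_of_nonneg_left h1 (hepos n).le
    refine h2.trans (le_of_eq ?_)
    simp only [he]
    have := (hSpos n).ne'
    field_simp
  have hgeo : Summable fun n : ℕ => δ / 2 * (1 / 2 : ℝ) ^ n :=
    (summable_geometric_of_lt_one (by norm_num) (by norm_num)).mul_left _
  have hsum : ∀ k, Summable fun n => e n * C n k := by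
    intro k
    refine Summable.of_norm_bounded_eventually_nat hgeo ?_
    filter_upwards [eventually_ge_atTop k] with n hn
    rw [Real.norm_of_nonneg (mul_nonneg (hepos n).le (hC0 n k))]
    exact hle n k (by omega)
  have hfe : ∀ n, ContDiff ℝ ∞ (fun z => e n * f n z) := fun n => contDiff_const.mul (hf n)
  have hbd : ∀ (k n : ℕ) (z : ℂ), ‖iteratedFDeriv ℝ k (fun z => e n * f n z) z‖ ≤ e n * C n k := by
    intro k n z
    have h1 : (fun z => e n * f n z) = e n • f n := by
      funext z; simp
    rw [h1, iteratedFDeriv_const_smul_apply ((hf n).contDiffAt.of_le (by exact_mod_cast le_top)),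
      norm_smul, Real.norm_of_nonneg (hepos n).le]
    exact mul_le_mul_of_nonneg_left (hC n k z) (hepos n).le
  refine ⟨e, hepos, ?_, ?_⟩
  · exact contDiff_tsum (N := ⊤) (v := fun k n => e n * C n k) hfe (fun k _ => hsum k)
      (fun k n z _ => hbd k n z)
  · set h : ℂ → ℝ := fun z => ∑' n, e n * f n z with hh
    have hsm : ContDiff ℝ ∞ h := contDiff_tsum (N := ⊤) (v := fun k n => e n * C n k) hfe
      (fun k _ => hsum k) (fun k n z _ => hbd k n z)
    have h2 : ∀ z, ‖fderiv ℝ (fderiv ℝ h) z‖ ≤ δ := by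
      intro z
      rw [← norm_iteratedFDeriv_one, norm_iteratedFDeriv_fderiv]
      rw [hh, iteratedFDeriv_tsum_apply (N := ⊤) (v := fun k n => e n * C n k) hfe
        (fun k _ => hsum k) (fun k n z _ => hbd k n z) (k := 1 + 1) (by exact_mod_cast le_top) z]
      have h3 : ∀ n, ‖iteratedFDeriv ℝ (1 + 1) (fun z => e n * f n z) z‖ ≤ δ / 2 * (1 / 2) ^ n :=
        fun n => (hbd 2 n z).trans (hle n 2 (by omega))
      refine (tsum_of_norm_bounded (hgeo.hasSum) h3).trans (le_of_eq ?_)
      rw [tsum_mul_left, tsum_geometric_of_lt_one (by norm_num) (by norm_num)]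
      norm_num
    intro z w
    have hd : Differentiable ℝ (fderiv ℝ h) := by
      have : ContDiff ℝ ∞ (fderiv ℝ h) := hsm.fderiv_right (by simp)
      exact this.differentiable (by simp)
    have := Convex.norm_image_sub_le_of_norm_fderiv_le (𝕜 := ℝ) (f := fderiv ℝ h) (C := δ) (s := univ)
      (fun x _ => hd x) (fun x _ => h2 x) convex_univ (mem_univ w) (mem_univ z)
    exact this

end

end Pool.Agent.MP_ae5b4e_an_GERM
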