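import Pool.Agent.Lib.MP_ae5b4e_an_GERM.Bumps
import Pool.Agent.Lib.MP_ae5b4e_an_GERM.Sum

/-!
# The perturbed level function
-/

namespace Pool.Agent.MP_ae5b4e_an_GERM

open Real Set Filter Topology
open scoped ContDiff

noncomputable section

/-- the point of the tangent line of the unit circle at `p` with signed distance `s` to `p` -/
def tpt (p : ℂ) (s : ℝ) : ℂ := p + s * (p * Complex.I)

/-- the sum of the waves -/
def hsum (e : ℕ → ℝ) (z : ℂ) : ℝ := ∑' n, e n * wav n z

/-- the perturbed level function -/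
def Fun (e : ℕ → ℝ) (z : ℂ) : ℝ := lev z + hsum e z

/-- admissible coefficients -/
def Good (e : ℕ → ℝ) : Prop :=
  (∀ n, 0 < e n) ∧ ContDiff ℝ ∞ (hsum e) ∧
    (∀ z w, ‖fderiv ℝ (hsum e) z - fderiv ℝ (hsum e) w‖ ≤ 1 / 16 * ‖z - w‖)

theorem exists_good : ∃ e, Good e := by
  obtain ⟨e, h1, h2, h3⟩ := exists_coeff wav_contDiff wav_hasCompactSupport (δ := 1 / 16) (by norm_num)
  exact ⟨e, h1, h2, h3⟩

variable {e : ℕ → ℝ}

lemma sep {n m : ℕ} {u : ℝ} (hn : (1 / 2 : ℝ) ^ (n + 1) ≤ u) (hn' : u ≤ (1 / 2) ^ n) (hm : m ≠ n) :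
    bmp m u = 0 := by
  rcases lt_or_gt_of_ne hm with h | h
  · apply bmp_zero_of_le
    refine hn'.trans ?_
    exact pow_le_pow_of_le_one (by norm_num) (by norm_num) h
  · apply bmp_zero_of_ge
    refine le_trans ?_ hn
    exact pow_le_pow_of_le_one (by norm_num) (by norm_num) h

lemma hsum_eq {n : ℕ} {z : ℂ} (hn : (1 / 2 : ℝ) ^ (n + 1) ≤ lev z) (hn' : lev z ≤ (1 / 2) ^ n) :
    hsum e z = e n * wav n z := by
  unfold hsum
  refine tsum_eq_single n ?_
  intro m hm
  simp [wav, sep hn hn' hm]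

lemma hsum_zero {z : ℂ} (h : ∀ n, wav n z = 0) : hsum e z = 0 := by
  unfold hsum; simp [h]

lemma hsum_zero_of_nonpos {z : ℂ} (h : lev z ≤ 0) : hsum e z = 0 :=
  hsum_zero fun n => wav_zero_of_lev_nonpos n h

lemma hsum_zero_of_one_le {z : ℂ} (h : 1 ≤ lev z) : hsum e z = 0 :=
  hsum_zero fun n => wav_zero_of_one_le n h

lemma lev_continuous : Continuous lev := lev_contDiff.continuous

lemma fderiv_hsum_zero (he : Good e) {z : ℂ} (hz : ‖z‖ ≤ 1) : fderiv ℝ (hsum e) z = 0 := by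
  have hopen : ∀ w ∈ Metric.ball (0 : ℂ) 1, fderiv ℝ (hsum e) w = 0 := by
    intro w hw
    have hev : hsum e =ᶠ[𝓝 w] fun _ => 0 := by
      filter_upwards [Metric.isOpen_ball.mem_nhds hw] with v hv
      apply hsum_zero_of_nonpos
      rw [lev_eq]
      have : ‖v‖ < 1 := by simpa using hv
      nlinarith [norm_nonneg v]
    rw [hev.fderiv_eq]
    simp
  have hc : Continuous (fderiv ℝ (hsum e)) := he.2.1.continuous_fderiv (by simp)
  have hcl : z ∈ closure (Metric.ball (0 : ℂ) 1) := by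
    rw [closure_ball _ one_ne_zero]; simpa using hz
  have hsub : closure (Metric.ball (0 : ℂ) 1) ⊆ {w | fderiv ℝ (hsum e) w = 0} :=
    closure_minimal hopen (isClosed_eq hc continuous_const)
  exact hsub hcl

lemma lev_line (x v : ℂ) (t : ℝ) :
    lev (x + t * v) = lev x + 2 * t * (x.re * v.re + x.im * v.im) + t ^ 2 * Complex.normSq v := by
  simp [lev, Complex.normSq_apply]; ring

lemma hasDerivAt_line (he : Good e) (x v : ℂ) (t : ℝ) :
    HasDerivAt (fun t : ℝ => Fun e (x + t * v))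
      (2 * (x.re * v.re + x.im * v.im) + 2 * t * Complex.normSq v + fderiv ℝ (hsum e) (x + t * v) v) t := by
  have h1 : HasDerivAt (fun t : ℝ => x + (t : ℂ) * v) v t := by
    have := ((Complex.ofRealCLM.hasDerivAt (x := t)).mul_const v).const_add x
    simpa using this
  have h2 : HasDerivAt (fun t : ℝ => hsum e (x + t * v)) (fderiv ℝ (hsum e) (x + t * v) v) t := by
    have hd : DifferentiableAt ℝ (hsum e) (x + t * v) := (he.2.1.differentiable (by simp)) _
    exact hd.hasFDerivAt.comp_hasDerivAt t h1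
  have h3 : HasDerivAt (fun t : ℝ => lev (x + t * v))
      (2 * (x.re * v.re + x.im * v.im) + 2 * t * Complex.normSq v) t := by
    have h4 : (fun t : ℝ => lev (x + t * v)) = fun t : ℝ =>
        lev x + 2 * t * (x.re * v.re + x.im * v.im) + t ^ 2 * Complex.normSq v := by
      funext t; exact lev_line x v t
    rw [h4]
    have h5 := (((hasDerivAt_id t).const_mul 2).mul_const (x.re * v.re + x.im * v.im)).const_add (lev x)
    have h6 := (hasDerivAt_pow 2 t).mul_const (Complex.normSq v)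
    refine (h5.add h6).congr_deriv ?_
    simp
  exact h3.add h2

lemma Fun_contDiff (he : Good e) : ContDiff ℝ ∞ (Fun e) :=
  (lev_contDiff.of_le le_top).add he.2.1

lemma Fun_continuous (he : Good e) : Continuous (Fun e) := (Fun_contDiff he).continuous

lemma fderiv_bound (he : Good e) (z w v : ℂ) :
    |fderiv ℝ (hsum e) z v - fderiv ℝ (hsum e) w v| ≤ 1 / 16 * ‖z - w‖ * ‖v‖ := by
  have h1 := (fderiv ℝ (hsum e) z - fderiv ℝ (hsum e) w).le_opNorm v
  have h2 := he.2.2 z w
  calc |fderiv ℝ (hsum e) z v - fderiv ℝ (hsum e) w v|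
      = ‖(fderiv ℝ (hsum e) z - fderiv ℝ (hsum e) w) v‖ := by simp
    _ ≤ ‖fderiv ℝ (hsum e) z - fderiv ℝ (hsum e) w‖ * ‖v‖ := h1
    _ ≤ 1 / 16 * ‖z - w‖ * ‖v‖ := mul_le_mul_of_nonneg_right h2 (norm_nonneg v)

/-- strictly increasing derivative along every line -/
lemma strictMono_line (he : Good e) (x : ℂ) {v : ℂ} (hv : v ≠ 0) :
    StrictConvexOn ℝ univ (fun t : ℝ => Fun e (x + t * v)) := by
  have hcont : Continuous (fun t : ℝ => Fun e (x + t * v)) := (Fun_continuous he).comp (by fun_prop)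
  refine StrictMono.strictConvexOn_univ_of_deriv hcont ?_
  intro s t hst
  rw [(hasDerivAt_line he x v s).deriv, (hasDerivAt_line he x v t).deriv]
  have h1 := fderiv_bound he (x + t * v) (x + s * v) v
  have h2 : ‖x + (t : ℂ) * v - (x + s * v)‖ = (t - s) * ‖v‖ := by
    have : x + (t : ℂ) * v - (x + s * v) = ((t - s : ℝ) : ℂ) * v := by push_cast; ring
    rw [this, norm_mul, Complex.norm_real, Real.norm_of_nonneg (by linarith)]
  rw [h2] at h1
  have h3 := (abs_le.1 h1).1
  have h4 : Complex.normSq v = ‖v‖ ^ 2 := Complex.normSq_eq_norm_sq v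
  have h5 : 0 < ‖v‖ := norm_pos_iff.2 hv
  rw [h4]
  have h6 : 0 < (t - s) * ‖v‖ ^ 2 := mul_pos (by linarith) (by positivity)
  nlinarith

theorem Fun_strictConvex (he : Good e) : StrictConvexOn ℝ univ (Fun e) := by
  refine ⟨convex_univ, ?_⟩
  intro x _ y _ hxy a b ha hb hab
  have hv : y - x ≠ 0 := sub_ne_zero.2 (Ne.symm hxy)
  have h := (strictMono_line he x hv).2 (mem_univ (0 : ℝ)) (mem_univ (1 : ℝ)) (by norm_num) ha hb hab
  have h1 : x + (((a • (0 : ℝ) + b • (1 : ℝ)) : ℝ) : ℂ) * (y - x) = a • x + b • y := by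
    have : a = 1 - b := by linarith
    subst this
    simp only [smul_eq_mul, mul_zero, mul_one, zero_add, Complex.real_smul]
    push_cast; ring
  simp only [] at h
  rw [h1] at h
  simpa using h

/-- strict growth along rays orthogonal to the position -/
lemma strictMonoOn_ray (he : Good e) {x v : ℂ} (hx : ‖x‖ ≤ 1) (hv : ‖v‖ = 1)
    (horth : x.re * v.re + x.im * v.im = 0) :
    StrictMonoOn (fun t : ℝ => Fun e (x + t * v)) (Ici 0) := by
  have hcont : Continuous (fun t : ℝ => Fun e (x + t * v)) := (Fun_continuous he).comp (by fun_prop)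
  refine strictMonoOn_of_deriv_pos (convex_Ici 0) hcont.continuousOn ?_
  intro t ht
  rw [interior_Ici, mem_Ioi] at ht
  rw [(hasDerivAt_line he x v t).deriv, horth]
  have h1 := fderiv_bound he (x + t * v) x v
  rw [fderiv_hsum_zero he hx] at h1
  have h2 : ‖x + (t : ℂ) * v - x‖ = t := by
    have : x + (t : ℂ) * v - x = (t : ℂ) * v := by ring
    rw [this, norm_mul, Complex.norm_real, Real.norm_of_nonneg ht.le, hv, mul_one]
  rw [h2, hv] at h1
  have h3 := (abs_le.1 h1).1
  simp only [zero_apply, sub_zero] at h3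
  have h4 : Complex.normSq v = 1 := by rw [Complex.normSq_eq_norm_sq, hv]; norm_num
  rw [h4]
  linarith

lemma Fun_inside {z : ℂ} (hz : ‖z‖ ≤ 1) : Fun e z = ‖z‖ ^ 2 - 1 := by
  have h : lev z ≤ 0 := by rw [lev_eq]; nlinarith [norm_nonneg z]
  rw [Fun, hsum_zero_of_nonpos h, lev_eq, add_zero]

lemma Fun_far {z : ℂ} (hz : 1 ≤ lev z) : Fun e z = ‖z‖ ^ 2 - 1 := by
  rw [Fun, hsum_zero_of_one_le hz, lev_eq, add_zero]

lemma Fun_pos (he : Good e) {z : ℂ} (hz : 1 < ‖z‖) : 0 < Fun e z := by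
  have hz0 : ‖z‖ ≠ 0 := by positivity
  set v : ℂ := z / ‖z‖ with hv
  have hv1 : ‖v‖ = 1 := by rw [hv, norm_div, Complex.norm_real, norm_norm, div_self hz0]
  have h := strictMonoOn_ray he (x := 0) (v := v) (by simp) hv1 (by simp)
  have h1 := h (mem_Ici.2 zero_le_one) (mem_Ici.2 (by positivity : (0 : ℝ) ≤ ‖z‖)) hz
  simp only [zero_add, Complex.ofReal_one, one_mul] at h1
  have hz1 : (‖z‖ : ℂ) ≠ 0 := by exact_mod_cast hz0
  have h2 : (‖z‖ : ℂ) * v = z := by
    rw [hv]; field_simp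
  rw [h2, Fun_inside hv1.le, hv1] at h1
  linarith

lemma Fun_fderiv_ne (he : Good e) {z : ℂ} (hz : z ≠ 0) : fderiv ℝ (Fun e) z ≠ 0 := by
  intro h
  have h1 := hasDerivAt_line he 0 z 1
  have h2 : HasDerivAt (fun t : ℝ => Fun e (0 + t * z)) (fderiv ℝ (Fun e) (0 + (1 : ℝ) * z) z) 1 := by
    have h3 : HasDerivAt (fun t : ℝ => (0 : ℂ) + (t : ℂ) * z) z 1 := by
      have := ((Complex.ofRealCLM.hasDerivAt (x := (1 : ℝ))).mul_const z).const_add 0
      simpa using this
    have hd : DifferentiableAt ℝ (Fun e) (0 + (1 : ℝ) * z) :=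
      ((Fun_contDiff he).differentiable (by simp)) _
    exact hd.hasFDerivAt.comp_hasDerivAt (1 : ℝ) h3
  have h4 := h1.unique h2
  simp only [Complex.ofReal_one, one_mul, zero_add, h, zero_apply, Complex.zero_re,
    Complex.zero_im, zero_mul, mul_zero, mul_one] at h4
  have h5 := fderiv_bound he z 0 z
  rw [fderiv_hsum_zero he (z := 0) (by simp)] at h5
  simp only [zero_apply, sub_zero] at h5
  have h6 := (abs_le.1 h5).1
  have h7 : Complex.normSq z = ‖z‖ ^ 2 := Complex.normSq_eq_norm_sq z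
  have h8 : 0 < ‖z‖ := norm_pos_iff.2 hz
  rw [h7] at h4
  nlinarith [mul_pos h8 h8]

lemma Fun_compact (he : Good e) (c : ℝ) : IsCompact {z : ℂ | Fun e z ≤ c} := by
  have hcl : IsClosed {z : ℂ | Fun e z ≤ c} := isClosed_le (Fun_continuous he) continuous_const
  refine Metric.isCompact_of_isClosed_isBounded hcl ?_
  refine (Metric.isBounded_closedBall (x := (0 : ℂ)) (r := 2 + |c|)).subset ?_
  intro z hz
  simp only [mem_ofPred_eq] at hz
  simp only [Metric.mem_closedBall, dist_zero_right]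
  by_contra hcon
  have hcon' : 2 + |c| < ‖z‖ := not_le.1 hcon
  have h0 := abs_nonneg c
  have h1 : 1 ≤ lev z := by rw [lev_eq]; nlinarith
  rw [Fun_far h1] at hz
  have := le_abs_self c
  nlinarith

end

end Pool.Agent.MP_ae5b4e_an_GERM
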