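import Pool.Agent.Lib.MP_ae5b4e_an_GERM.Sym

/-!
# Leaves which are not conics
-/

namespace Pool.Agent.MP_ae5b4e_an_GERM

open Real Set Filter Topology
open scoped ContDiff

noncomputable section

variable {e : ℕ → ℝ}

/-- the value at `z` of the quadratic polynomial with coefficients `q` -/
def quad (q : Fin 6 → ℝ) (z : ℂ) : ℝ :=
  q 0 * z.re ^ 2 + q 1 * (z.re * z.im) + q 2 * z.im ^ 2 + q 3 * z.re + q 4 * z.im + q 5

/-- the point with polar coordinates `r`, `φ` -/
def pol (r φ : ℝ) : ℂ := r * (Complex.cos φ + Complex.sin φ * Complex.I)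

lemma pol_re (r φ : ℝ) : (pol r φ).re = r * Real.cos φ := by
  simp [pol, ← Complex.ofReal_cos, ← Complex.ofReal_sin]

lemma pol_im (r φ : ℝ) : (pol r φ).im = r * Real.sin φ := by
  simp [pol, ← Complex.ofReal_cos, ← Complex.ofReal_sin]

lemma lev_pol (r φ : ℝ) : lev (pol r φ) = r ^ 2 - 1 := by
  rw [lev, Complex.normSq_apply, pol_re, pol_im]
  have := Real.sin_sq_add_cos_sq φ
  linear_combination r ^ 2 * this

lemma norm_pol {r : ℝ} (hr : 0 ≤ r) (φ : ℝ) : ‖pol r φ‖ = r := by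
  have h := lev_pol r φ
  rw [lev_eq] at h
  have h1 : ‖pol r φ‖ ^ 2 = r ^ 2 := by linarith
  exact (sq_eq_sq₀ (norm_nonneg _) hr).1 h1

lemma cut_pol {r : ℝ} (hr : 0 < r) (n : ℕ) (φ : ℝ) :
    cut n (pol r φ) = Real.smoothTransition (2 ^ n * (1 - Real.cos φ) - 1) := by
  rw [cut, norm_pol hr.le, pol_re, mul_div_cancel_left₀ _ hr.ne']

lemma ang_pol {r : ℝ} (hr : 0 < r) {φ : ℝ} (h0 : 0 < φ) (h1 : φ ≤ 2 * π) : ang (pol r φ) = φ := by
  have h : -pol r φ = (r : ℂ) * (Complex.cos ((φ - π : ℝ)) + Complex.sin ((φ - π : ℝ)) * Complex.I) := by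
    push_cast
    rw [Complex.cos_sub_pi, Complex.sin_sub_pi]
    unfold pol; ring
  rw [ang, h, Complex.arg_mul_cos_add_sin_mul_I hr ⟨by linarith, by linarith⟩]; ring

/-- a quadratic polynomial which vanishes on an arc of a circle around the origin is a multiple of the
equation of the circle -/
lemma quad_arc {q : Fin 6 → ℝ} {r : ℝ} (hr : 0 < r) (h : ∀ᶠ φ in 𝓝 (0 : ℝ), quad q (pol r φ) = 0) :
    q 1 = 0 ∧ q 3 = 0 ∧ q 4 = 0 ∧ q 2 = q 0 ∧ q 5 = -q 0 * r ^ 2 := by
  have han : AnalyticOnNhd ℝ (fun φ : ℝ => quad q (pol r φ)) univ := by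
    have h1 : (fun φ : ℝ => quad q (pol r φ)) = fun φ =>
        q 0 * (r * Real.cos φ) ^ 2 + q 1 * ((r * Real.cos φ) * (r * Real.sin φ)) +
          q 2 * (r * Real.sin φ) ^ 2 + q 3 * (r * Real.cos φ) + q 4 * (r * Real.sin φ) + q 5 := by
      funext φ; simp only [quad, pol_re, pol_im]
    rw [h1]
    intro φ _
    have hc : AnalyticAt ℝ Real.cos φ := Real.analyticAt_cos
    have hs : AnalyticAt ℝ Real.sin φ := Real.analyticAt_sin
    have hc' : AnalyticAt ℝ (fun φ => r * Real.cos φ) φ := analyticAt_const.mul hc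
    have hs' : AnalyticAt ℝ (fun φ => r * Real.sin φ) φ := analyticAt_const.mul hs
    exact (((((analyticAt_const.mul (hc'.pow 2)).add (analyticAt_const.mul (hc'.mul hs'))).add
      (analyticAt_const.mul (hs'.pow 2))).add (analyticAt_const.mul hc')).add
      (analyticAt_const.mul hs')).add analyticAt_const
  have hz : ∀ φ : ℝ, quad q (pol r φ) = 0 := by
    intro φ
    have := han.eqOn_zero_of_preconnected_of_eventuallyEq_zero isPreconnected_univ (mem_univ 0) h
    exact this (mem_univ φ)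
  have e0 := hz 0
  have e1 := hz π
  have e2 := hz (π / 2)
  have e3 := hz (-(π / 2))
  have e4 := hz (π / 4)
  simp only [quad, pol_re, pol_im, Real.cos_zero, Real.sin_zero, Real.cos_pi, Real.sin_pi,
    Real.cos_pi_div_two, Real.sin_pi_div_two, Real.cos_neg, Real.sin_neg, Real.cos_pi_div_four,
    Real.sin_pi_div_four] at e0 e1 e2 e3 e4
  have hr2 : (0 : ℝ) < r ^ 2 := by positivity
  have h3 : q 3 = 0 := by
    have : q 3 * r = 0 := by linear_combination (e0 - e1) / 2
    rcases mul_eq_zero.1 this with h | h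
    · exact h
    · exact absurd h hr.ne'
  have h4 : q 4 = 0 := by
    have : q 4 * r = 0 := by linear_combination (e2 - e3) / 2
    rcases mul_eq_zero.1 this with h | h
    · exact h
    · exact absurd h hr.ne'
  have h5 : q 5 = -q 0 * r ^ 2 := by rw [h3] at e0; linear_combination e0
  have h2 : q 2 = q 0 := by
    rw [h4, h5] at e2
    have : (q 2 - q 0) * r ^ 2 = 0 := by linear_combination e2
    rcases mul_eq_zero.1 this with h | h
    · linarith
    · exact absurd h hr2.ne'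
  have h1 : q 1 = 0 := by
    rw [h3, h4, h5, h2] at e4
    have hs2 : (√2 : ℝ) ^ 2 = 2 := Real.sq_sqrt (by norm_num)
    have : q 1 * r ^ 2 = 0 := by
      linear_combination 2 * e4 - (q 0 * r ^ 2 + q 1 * r ^ 2 / 2) * hs2
    rcases mul_eq_zero.1 this with h | h
    · exact h
    · exact absurd h hr2.ne'
  exact ⟨h1, h3, h4, h2, h5⟩

/-- every ray from the origin meets the leaf -/
lemma ray_point (he : Good e) {c : ℝ} (hc0 : 0 < c) (hc1 : c < 1) (φ : ℝ) :
    ∃ t : ℝ, 0 ≤ t ∧ Fun e (pol t φ) = c := by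
  have hcont : ContinuousOn (fun t : ℝ => Fun e (pol t φ)) (Icc 0 2) := by
    apply Continuous.continuousOn
    exact (Fun_continuous he).comp (by unfold pol; fun_prop)
  have n0 : ‖pol 0 φ‖ = 0 := norm_pol le_rfl φ
  have n2 : ‖pol 2 φ‖ = 2 := norm_pol (by norm_num) φ
  have h0 : Fun e (pol 0 φ) = -1 := by
    rw [Fun_inside (by rw [n0]; norm_num), n0]; norm_num
  have h2 : Fun e (pol 2 φ) = 3 := by
    rw [Fun_far (by rw [lev_pol]; norm_num), n2]; norm_num
  have hIVT := intermediate_value_Icc (by norm_num : (0 : ℝ) ≤ 2) hcont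
  have hmem : c ∈ Icc (Fun e (pol 0 φ)) (Fun e (pol 2 φ)) := by
    rw [h0, h2]; exact ⟨by linarith, by linarith⟩
  obtain ⟨t, ht, htc⟩ := hIVT hmem
  exact ⟨t, ht.1, htc⟩

/-- there are leaves arbitrarily close to the circle which lie on no conic -/
theorem exists_leaf (he : Good e) {η : ℝ} (hη : 0 < η) : ∃ c, 0 < c ∧ c < η ∧
    ∀ q : Fin 6 → ℝ, q ≠ 0 → ∃ z : ℂ, Fun e z = c ∧ quad q z ≠ 0 := by
  obtain ⟨n, hn⟩ := exists_pow_lt_of_lt_one hη (by norm_num : (1 / 2 : ℝ) < 1)
  -- pass to `n + 1`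
  set m : ℕ := n + 1 with hm
  have hm1 : (1 / 2 : ℝ) ^ m ≤ 1 / 2 := by
    rw [hm, pow_succ]
    have : (1 / 2 : ℝ) ^ n ≤ 1 := pow_le_one₀ (by norm_num) (by norm_num)
    linarith
  have hmn : (1 / 2 : ℝ) ^ m ≤ (1 / 2) ^ n := by
    apply pow_le_pow_of_le_one (by norm_num) (by norm_num); omega
  have hmpos : (0 : ℝ) < (1 / 2) ^ m := by positivity
  have hm2 : (1 / 2 : ℝ) ^ (m + 1) = (1 / 2) ^ m / 2 := by rw [pow_succ]; ring
  set c : ℝ := 3 / 4 * (1 / 2) ^ m with hc
  have hc0 : 0 < c := by positivity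
  have hcl : (1 / 2 : ℝ) ^ (m + 1) < c := by rw [hm2, hc]; linarith
  have hcu : c < (1 / 2) ^ m := by rw [hc]; linarith
  have hc1 : c < 1 := by linarith
  refine ⟨c, hc0, by linarith, ?_⟩
  intro q hq
  by_contra hcon
  push Not at hcon
  set r : ℝ := √(1 + c) with hr
  have hrsq : r ^ 2 = 1 + c := Real.sq_sqrt (by linarith)
  have hr0 : 0 < r := Real.sqrt_pos.2 (by linarith)
  have hlev : ∀ φ, lev (pol r φ) = c := by intro φ; rw [lev_pol, hrsq]; ring
  have hFun : ∀ φ, Fun e (pol r φ) = c + e m * wav m (pol r φ) := by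
    intro φ
    rw [Fun, hsum_eq (n := m) (by rw [hlev]; exact hcl.le) (by rw [hlev]; exact hcu.le), hlev]
  -- the arc
  have harc : ∀ᶠ φ in 𝓝 (0 : ℝ), quad q (pol r φ) = 0 := by
    have hcont : Tendsto (fun φ : ℝ => 2 ^ m * (1 - Real.cos φ) - 1) (𝓝 0) (𝓝 (-1)) := by
      have h1 : Continuous (fun φ : ℝ => 2 ^ m * (1 - Real.cos φ) - 1) := by fun_prop
      have := h1.tendsto 0
      simpa using this
    filter_upwards [hcont.eventually (gt_mem_nhds (by norm_num : (-1 : ℝ) < 0))] with φ hφ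
    apply hcon
    rw [hFun, wav, cut_pol hr0, Real.smoothTransition.zero_of_nonpos hφ.le]; ring
  obtain ⟨h1, h3, h4, h2, h5⟩ := quad_arc hr0 harc
  have hq0 : q 0 ≠ 0 := by
    intro h0
    apply hq
    funext i
    fin_cases i <;> simp_all
  have hleaf : ∀ z, Fun e z = c → lev z = c := by
    intro z hz
    have h6 := hcon z hz
    rw [quad, h1, h3, h4, h2, h5] at h6
    have h7 : q 0 * (z.re ^ 2 + z.im ^ 2 - r ^ 2) = 0 := by linear_combination h6
    rcases mul_eq_zero.1 h7 with h | h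
    · exact absurd h hq0
    · rw [lev, Complex.normSq_apply]; nlinarith
  -- a direction where the wave does not vanish
  set α : ℝ := Real.arctan √c with hα
  have hα0 : 0 < α := Real.arctan_pos.2 (Real.sqrt_pos.2 hc0)
  have hα1 : α < π / 2 := Real.arctan_lt_pi_div_two _
  set k : ℕ := ⌈π / (2 * α)⌉₊ with hk
  have hk1 : π / (2 * α) ≤ k := Nat.le_ceil _
  have hk2 : (k : ℝ) < π / (2 * α) + 1 := Nat.ceil_lt_add_one (by positivity)
  have hk1' : π / 2 ≤ α * k := by
    have : α * (π / (2 * α)) = π / 2 := by field_simp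
    nlinarith [mul_le_mul_of_nonneg_left hk1 hα0.le]
  have hk2' : α * k < π / 2 + α := by
    have : α * (π / (2 * α)) = π / 2 := by field_simp
    nlinarith [mul_lt_mul_of_pos_left hk2 hα0]
  set φ : ℝ := α * (k + 1 / 2) with hφ
  have hφ1 : π / 2 < φ := by rw [hφ]; nlinarith
  have hφ2 : φ < 3 * π / 2 := by rw [hφ]; nlinarith
  have hpi := Real.pi_pos
  -- the leaf point on the ray
  have hray : ∃ t : ℝ, 0 ≤ t ∧ Fun e (pol t φ) = c := ray_point he hc0 hc1 φ
  obtain ⟨t, ht0, htc⟩ := hray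
  have htr : t = r := by
    have h6 := hleaf _ htc
    rw [lev_pol] at h6
    have : t ^ 2 = r ^ 2 := by rw [hrsq]; linarith
    exact (sq_eq_sq₀ ht0 hr0.le).1 this
  rw [htr, hFun] at htc
  have hw : wav m (pol r φ) = 0 := by
    have h6 : e m * wav m (pol r φ) = 0 := by linarith
    rcases mul_eq_zero.1 h6 with h | h
    · exact absurd h (he.1 m).ne'
    · exact h
  rw [wav, hlev, cut_pol hr0, ang_pol hr0 (by linarith) (by linarith), alp, hlev] at hw
  have hcos : Real.cos φ < 0 := Real.cos_neg_of_pi_div_two_lt_of_lt hφ1 (by linarith)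
  have hcut : Real.smoothTransition (2 ^ m * (1 - Real.cos φ) - 1) = 1 := by
    apply Real.smoothTransition.one_of_one_le
    have h6 : (2 : ℝ) ≤ 2 ^ m := by
      rw [hm, pow_succ]
      have : (1 : ℝ) ≤ 2 ^ n := one_le_pow₀ (by norm_num)
      linarith
    nlinarith
  have hsin : Real.sin (π * φ / α) ≠ 0 := by
    have h6 : π * φ / α = k * π + π / 2 := by rw [hφ]; field_simp
    rw [h6, Real.sin_add_pi_div_two, Real.cos_nat_mul_pi]
    exact pow_ne_zero _ (by norm_num)
  rw [hcut, mul_one] at hw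
  rcases mul_eq_zero.1 hw with h | h
  · exact absurd h (bmp_pos hcl hcu).ne'
  · exact hsin h

end

end Pool.Agent.MP_ae5b4e_an_GERM
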