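import Pool.Agent.Lib.MP_ae5b4e_an_GERM.Leaf

/-!
# A smooth convex foliation with germwise projective involutions which is no pencil

`F` is a smooth strictly convex function on the plane, equal to `|z|^2 - 1` in the closed unit disc.
On the tangent line of the unit circle at any point `p` the involution of every leaf `F = c` close
enough to the circle (depending on `p`) is the isometry `t ↦ -t`, and there are leaves arbitrarily
close to the circle which lie on no conic.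
-/

namespace Pool.Agent.MP_ae5b4e_an_GERM

open Real Set Filter Topology
open scoped ContDiff

noncomputable section

variable {e : ℕ → ℝ}

lemma orth_tangent (p : ℂ) : p.re * (p * Complex.I).re + p.im * (p * Complex.I).im = 0 := by
  simp; ring

lemma tangent_pos (he : Good e) {p : ℂ} (hp : ‖p‖ = 1) :
    StrictMonoOn (fun t : ℝ => Fun e (tpt p t)) (Ici 0) := by
  have h := strictMonoOn_ray he (x := p) (v := p * Complex.I) hp.le (by simp [hp]) (orth_tangent p)
  exact h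

lemma tangent_neg (he : Good e) {p : ℂ} (hp : ‖p‖ = 1) :
    StrictMonoOn (fun t : ℝ => Fun e (tpt p (-t))) (Ici 0) := by
  have h := strictMonoOn_ray he (x := p) (v := -(p * Complex.I)) hp.le (by simp [hp])
    (by have := orth_tangent p; simp only [Complex.neg_re, Complex.neg_im]; linarith)
  have h1 : (fun t : ℝ => Fun e (tpt p (-t))) = fun t : ℝ => Fun e (p + t * -(p * Complex.I)) := by
    funext t; unfold tpt; push_cast; congr 1; ring
  rw [h1]; exact h

lemma Fun_on_circle {p : ℂ} (hp : ‖p‖ = 1) : Fun e p = 0 := by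
  rw [Fun_inside hp.le, hp]; norm_num

theorem involution (he : Good e) {p : ℂ} (hp : ‖p‖ = 1) : ∃ c0 > 0, ∀ c, 0 < c → c < c0 →
    ∃ s > 0, ∀ t : ℝ, Fun e (tpt p t) = c ↔ t = s ∨ t = -s := by
  obtain ⟨δ, hδ, hsym⟩ := Fun_sym (e := e) hp
  have hmono := tangent_pos he hp
  have hanti := tangent_neg he hp
  have h00 : Fun e (tpt p 0) = 0 := by rw [tpt_zero, Fun_on_circle hp]
  have hpos : 0 < Fun e (tpt p (δ / 2)) := by
    have := hmono (mem_Ici.2 le_rfl) (mem_Ici.2 (by linarith : (0 : ℝ) ≤ δ / 2)) (by linarith)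
    simp only [h00] at this
    exact this
  refine ⟨Fun e (tpt p (δ / 2)), hpos, ?_⟩
  intro c hc hcu
  have hcont : ContinuousOn (fun t : ℝ => Fun e (tpt p t)) (Icc 0 (δ / 2)) :=
    ((Fun_continuous he).comp (tpt_continuous p)).continuousOn
  have hmem : c ∈ Icc (Fun e (tpt p 0)) (Fun e (tpt p (δ / 2))) := by rw [h00]; exact ⟨hc.le, hcu.le⟩
  obtain ⟨s, hs, hsc⟩ := intermediate_value_Icc (by linarith : (0 : ℝ) ≤ δ / 2) hcont hmem
  have hsc' : Fun e (tpt p s) = c := hsc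
  have hs0 : 0 < s := by
    refine lt_of_le_of_ne hs.1 ?_
    rintro rfl
    rw [h00] at hsc'; linarith
  have hsneg : Fun e (tpt p (-s)) = c := by
    rw [← hsym s hs0 (by linarith [hs.2])]; exact hsc'
  refine ⟨s, hs0, ?_⟩
  intro t
  constructor
  · intro ht
    rcases le_total 0 t with h | h
    · left
      exact hmono.injOn (mem_Ici.2 h) (mem_Ici.2 hs0.le) (by simp only [ht, hsc'])
    · right
      have h1 : -t = s := by
        apply hanti.injOn (mem_Ici.2 (by linarith : (0 : ℝ) ≤ -t)) (mem_Ici.2 hs0.le)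
        simp only [neg_neg, ht, hsneg]
      linarith
  · rintro (rfl | rfl)
    · exact hsc'
    · exact hsneg

/-- the counterexample -/
theorem main : ∃ F : ℂ → ℝ, ContDiff ℝ ∞ F ∧ StrictConvexOn ℝ univ F ∧
    (∀ c : ℝ, IsCompact {z | F z ≤ c}) ∧ (∀ z, z ≠ 0 → fderiv ℝ F z ≠ 0) ∧
    (∀ z, ‖z‖ ≤ 1 → F z = ‖z‖ ^ 2 - 1) ∧ (∀ z, 1 < ‖z‖ → 0 < F z) ∧
    (∀ p : ℂ, ‖p‖ = 1 → ∃ c0 > 0, ∀ c, 0 < c → c < c0 →
      ∃ s > 0, ∀ t : ℝ, F (p * (1 + t * Complex.I)) = c ↔ t = s ∨ t = -s) ∧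
    ∀ η > 0, ∃ c, 0 < c ∧ c < η ∧ ∀ q : Fin 6 → ℝ, q ≠ 0 → ∃ z : ℂ, F z = c ∧
      q 0 * z.re ^ 2 + q 1 * (z.re * z.im) + q 2 * z.im ^ 2 + q 3 * z.re + q 4 * z.im + q 5 ≠ 0 := by
  obtain ⟨e, he⟩ := exists_good
  refine ⟨Fun e, Fun_contDiff he, Fun_strictConvex he, Fun_compact he, fun z hz => Fun_fderiv_ne he hz,
    fun z hz => Fun_inside hz, fun z hz => Fun_pos he hz, ?_, fun η hη => exists_leaf he hη⟩
  intro p hp
  obtain ⟨c0, hc0, h⟩ := involution he hp
  refine ⟨c0, hc0, fun c hc hcc => ?_⟩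
  obtain ⟨s, hs, h⟩ := h c hc hcc
  refine ⟨s, hs, fun t => ?_⟩
  rw [← tpt_eq]; exact h t

end

end Pool.Agent.MP_ae5b4e_an_GERM
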