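import Pool.Agent.Lib.MP_ae5b4e_an_GERM.Fn

/-!
# The symmetry near every tangency point
-/

namespace Pool.Agent.MP_ae5b4e_an_GERM

open Real Set Filter Topology
open scoped ContDiff

noncomputable section

variable {e : ℕ → ℝ}

lemma tpt_eq (p : ℂ) (s : ℝ) : tpt p s = p * (1 + s * Complex.I) := by unfold tpt; ring

lemma norm_tpt {p : ℂ} (hp : ‖p‖ = 1) (s : ℝ) : ‖tpt p s‖ = √(1 + s ^ 2) := by
  rw [tpt_eq, norm_mul, hp, one_mul]
  have : (1 : ℂ) + s * Complex.I = ((1 : ℝ) : ℂ) + (s : ℂ) * Complex.I := by simp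
  rw [this, Complex.norm_add_mul_I]; simp

lemma lev_tpt {p : ℂ} (hp : ‖p‖ = 1) (s : ℝ) : lev (tpt p s) = s ^ 2 := by
  rw [lev_eq, norm_tpt hp, Real.sq_sqrt (by positivity)]; ring

lemma one_add_mul_I (s : ℝ) : (1 : ℂ) + s * Complex.I =
    (√(1 + s ^ 2) : ℝ) * (Complex.cos (Real.arctan s : ℝ) + Complex.sin (Real.arctan s : ℝ) * Complex.I) := by
  have h0 : (√(1 + s ^ 2) : ℝ) ≠ 0 := by positivity
  rw [← Complex.ofReal_cos, ← Complex.ofReal_sin, Real.cos_arctan, Real.sin_arctan]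
  have h1 : ((√(1 + s ^ 2) : ℝ) : ℂ) ≠ 0 := by exact_mod_cast h0
  push_cast
  field_simp

lemma tpt_polar {p : ℂ} (hp : ‖p‖ = 1) (s : ℝ) : -tpt p s = (√(1 + s ^ 2) : ℝ) *
    (Complex.cos (((-p).arg + Real.arctan s : ℝ)) + Complex.sin (((-p).arg + Real.arctan s : ℝ)) * Complex.I) := by
  have h1 : -p = Complex.cos ((-p).arg : ℝ) + Complex.sin ((-p).arg : ℝ) * Complex.I := by
    have := Complex.norm_mul_cos_add_sin_mul_I (-p)
    rw [norm_neg, hp] at this
    simpa using this.symm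
  have h2 : Complex.cos (((-p).arg + Real.arctan s : ℝ)) + Complex.sin (((-p).arg + Real.arctan s : ℝ)) * Complex.I
      = (Complex.cos ((-p).arg : ℝ) + Complex.sin ((-p).arg : ℝ) * Complex.I) *
        (Complex.cos (Real.arctan s : ℝ) + Complex.sin (Real.arctan s : ℝ) * Complex.I) := by
    push_cast
    rw [Complex.cos_add, Complex.sin_add]
    ring_nf
    rw [Complex.I_sq]; ring
  rw [h2, ← h1, tpt_eq, one_add_mul_I]; ring

lemma ang_tpt {p : ℂ} (hp : ‖p‖ = 1) {s : ℝ} (h : (-p).arg + Real.arctan s ∈ Ioc (-π) π) :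
    ang (tpt p s) = ang p + Real.arctan s := by
  unfold ang
  rw [tpt_polar hp s]
  rw [Complex.arg_mul_cos_add_sin_mul_I (by positivity) h]; ring

lemma alp_tpt {p : ℂ} (hp : ‖p‖ = 1) {s : ℝ} (hs : 0 ≤ s) : alp (tpt p s) = Real.arctan s := by
  rw [alp, lev_tpt hp, Real.sqrt_sq hs]

lemma alp_tpt_neg {p : ℂ} (hp : ‖p‖ = 1) {s : ℝ} (hs : 0 ≤ s) : alp (tpt p (-s)) = Real.arctan s := by
  rw [alp, lev_tpt hp, neg_sq, Real.sqrt_sq hs]

/-- away from the point `1` the sine factors agree -/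
lemma sin_tpt {p : ℂ} (hp : ‖p‖ = 1) {s : ℝ} (hs : 0 < s) (h1 : (-p).arg + Real.arctan s ∈ Ioc (-π) π)
    (h2 : (-p).arg + Real.arctan (-s) ∈ Ioc (-π) π) :
    Real.sin (π * ang (tpt p s) / alp (tpt p s)) = Real.sin (π * ang (tpt p (-s)) / alp (tpt p (-s))) := by
  rw [alp_tpt hp hs.le, alp_tpt_neg hp hs.le, ang_tpt hp h1, ang_tpt hp h2, Real.arctan_neg]
  have h3 : 0 < Real.arctan s := Real.arctan_pos.2 hs
  have h4 : π * (ang p + Real.arctan s) / Real.arctan s = π * ang p / Real.arctan s + π := by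
    field_simp
  have h5 : π * (ang p + -Real.arctan s) / Real.arctan s = π * ang p / Real.arctan s - π := by
    field_simp; ring
  rw [h4, h5, Real.sin_add_pi, Real.sin_sub_pi]

lemma tpt_zero (p : ℂ) : tpt p 0 = p := by simp [tpt]

lemma tpt_continuous (p : ℂ) : Continuous (tpt p) := by unfold tpt; fun_prop

lemma sym_ne_one {p : ℂ} (hp : ‖p‖ = 1) (hp1 : p ≠ 1) : ∃ δ > 0, ∀ s : ℝ, 0 < s → s < δ → ∀ n,
    wav n (tpt p s) = wav n (tpt p (-s)) := by
  have harg : (-p).arg < π := by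
    refine lt_of_le_of_ne (Complex.arg_le_pi _) ?_
    intro h
    rw [Complex.arg_eq_pi_iff] at h
    apply hp1
    have him : p.im = 0 := by simpa using h.2
    have hre : 0 < p.re := by simpa using h.1
    have hn : p.re ^ 2 + p.im ^ 2 = 1 := by
      have := Complex.normSq_eq_norm_sq p
      rw [hp, Complex.normSq_apply] at this
      nlinarith
    have hre1 : p.re = 1 := by
      rw [him] at hn
      nlinarith
    apply Complex.ext <;> simp [hre1, him]
  have harg' : -π < (-p).arg := Complex.neg_pi_lt_arg _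
  have hre : p.re < 1 := by
    have h1 : p.re ≤ ‖p‖ := Complex.re_le_norm p
    rw [hp] at h1
    refine lt_of_le_of_ne h1 ?_
    intro h
    have hn : p.re ^ 2 + p.im ^ 2 = 1 := by
      have := Complex.normSq_eq_norm_sq p
      rw [hp, Complex.normSq_apply] at this
      nlinarith
    rw [h] at hn
    have him : p.im = 0 := by nlinarith
    exact hp1 (Complex.ext (by simp [h]) (by simp [him]))
  -- continuity at `0`
  have hc1 : Tendsto (fun s : ℝ => (-p).arg + Real.arctan s) (𝓝 0) (𝓝 (-p).arg) := by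
    have : Continuous (fun s : ℝ => (-p).arg + Real.arctan s) := by fun_prop
    have h := this.tendsto 0
    simpa using h
  have he1 : ∀ᶠ s : ℝ in 𝓝 0, (-p).arg + Real.arctan s ∈ Ioo (-π) π :=
    hc1.eventually (Ioo_mem_nhds harg' harg)
  have hc2 : Tendsto (fun s : ℝ => 1 - (tpt p s).re / ‖tpt p s‖) (𝓝 0) (𝓝 (1 - p.re)) := by
    have hcont : ContinuousAt (fun s : ℝ => 1 - (tpt p s).re / ‖tpt p s‖) 0 := by
      have h1 := (tpt_continuous p).continuousAt (x := 0)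
      refine continuousAt_const.sub (ContinuousAt.div (Complex.continuous_re.continuousAt.comp h1)
        (continuous_norm.continuousAt.comp h1) ?_)
      rw [tpt_zero, hp]; exact one_ne_zero
    have := hcont.tendsto
    simpa [tpt_zero, hp] using this
  have he2 : ∀ᶠ s : ℝ in 𝓝 0, (1 - p.re) / 2 < 1 - (tpt p s).re / ‖tpt p s‖ :=
    hc2.eventually (lt_mem_nhds (by linarith))
  have he3 : ∀ᶠ s : ℝ in 𝓝 0, 4 * s ^ 2 < (1 - p.re) / 2 := by
    have : Continuous (fun s : ℝ => 4 * s ^ 2) := by fun_prop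
    have h := this.tendsto 0
    refine h.eventually (gt_mem_nhds ?_)
    simp; linarith
  obtain ⟨δ, hδ, hball⟩ := Metric.eventually_nhds_iff.1 (he1.and (he2.and he3))
  refine ⟨δ, hδ, ?_⟩
  intro s hs hsδ n
  obtain ⟨ha, hb, hc⟩ := hball (y := s) (by rw [Real.dist_eq, sub_zero, abs_of_pos hs]; exact hsδ)
  obtain ⟨ha', hb', -⟩ := hball (y := -s) (by rw [Real.dist_eq, sub_zero, abs_neg, abs_of_pos hs]; exact hsδ)
  have hlev : lev (tpt p s) = lev (tpt p (-s)) := by rw [lev_tpt hp, lev_tpt hp, neg_sq]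
  unfold wav
  rw [sin_tpt hp hs ⟨ha.1, ha.2.le⟩ ⟨ha'.1, ha'.2.le⟩, ← hlev]
  by_cases hbm : bmp n (lev (tpt p s)) = 0
  · rw [hbm]; ring
  obtain ⟨h1, -⟩ := bmp_ne hbm
  rw [lev_tpt hp] at h1
  have hkey : (2 : ℝ) < 2 ^ n * (4 * s ^ 2) := by
    have h2 : (1 / 2 : ℝ) ^ (n + 1) * 2 ^ n = 1 / 2 := by
      rw [pow_succ, mul_right_comm, ← mul_pow]; norm_num
    have h3 : (0 : ℝ) < 2 ^ n := by positivity
    nlinarith [mul_lt_mul_of_pos_right h1 h3]
  have hcut : ∀ t : ℝ, (1 - p.re) / 2 < 1 - (tpt p t).re / ‖tpt p t‖ → cut n (tpt p t) = 1 := by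
    intro t ht
    unfold cut
    apply Real.smoothTransition.one_of_one_le
    have h3 : (0 : ℝ) < 2 ^ n := by positivity
    have h4 : 4 * s ^ 2 < 1 - (tpt p t).re / ‖tpt p t‖ := hc.trans ht
    have := mul_lt_mul_of_pos_left h4 h3
    linarith
  rw [hcut s hb, hcut (-s) hb']

lemma sym_one : ∀ s : ℝ, 0 < s → ∀ n, wav n (tpt 1 s) = 0 ∧ wav n (tpt 1 (-s)) = 0 := by
  intro s hs n
  have key : ∀ t : ℝ, |t| = s → wav n (tpt 1 t) = 0 := by
    intro t ht
    have ht2 : t ^ 2 = s ^ 2 := by rw [← ht, sq_abs]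
    unfold wav
    by_cases hbm : bmp n (lev (tpt 1 t)) = 0
    · rw [hbm]; ring
    obtain ⟨-, h2⟩ := bmp_ne hbm
    rw [lev_tpt (by simp), ht2] at h2
    have hcut : cut n (tpt 1 t) = 0 := by
      unfold cut
      apply Real.smoothTransition.zero_of_nonpos
      rw [norm_tpt (by simp)]
      have hre : (tpt 1 t).re = 1 := by simp [tpt]
      rw [hre, ht2]
      have h3 : (0 : ℝ) < √(1 + s ^ 2) := by positivity
      have h4 : √(1 + s ^ 2) ^ 2 = 1 + s ^ 2 := Real.sq_sqrt (by positivity)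
      have h5 : 1 ≤ √(1 + s ^ 2) := by nlinarith [sq_nonneg s]
      -- 1 - 1/r ≤ s^2
      have h6 : 1 - 1 / √(1 + s ^ 2) ≤ s ^ 2 := by
        rw [sub_le_iff_le_add, ← sub_le_iff_le_add', le_div_iff₀ h3]
        nlinarith [mul_nonneg (sq_nonneg s) (sub_nonneg.2 h5), sq_nonneg s]
      have h7 : (0 : ℝ) < 2 ^ n := by positivity
      have h8 : (2 : ℝ) ^ n * (1 / 2) ^ n = 1 := by rw [← mul_pow]; norm_num
      nlinarith [mul_le_mul_of_nonneg_left h6 h7.le, mul_lt_mul_of_pos_left h2 h7]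
    rw [hcut]; ring
  exact ⟨key s (abs_of_pos hs), key (-s) (by rw [abs_neg, abs_of_pos hs])⟩

/-- the level function is invariant under `s ↦ -s` near every tangency point -/
theorem Fun_sym {p : ℂ} (hp : ‖p‖ = 1) : ∃ δ > 0, ∀ s : ℝ, 0 < s → s < δ →
    Fun e (tpt p s) = Fun e (tpt p (-s)) := by
  by_cases hp1 : p = 1
  · subst hp1
    refine ⟨1, one_pos, ?_⟩
    intro s hs _
    unfold Fun
    rw [hsum_zero fun n => (sym_one s hs n).1, hsum_zero fun n => (sym_one s hs n).2, lev_tpt hp,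
      lev_tpt hp, neg_sq]
  · obtain ⟨δ, hδ, h⟩ := sym_ne_one hp hp1
    refine ⟨δ, hδ, ?_⟩
    intro s hs hs'
    unfold Fun hsum
    rw [lev_tpt hp, lev_tpt hp, neg_sq]
    congr 1
    apply tsum_congr
    intro n
    rw [h s hs hs' n]

end

end Pool.Agent.MP_ae5b4e_an_GERM
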